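import Pool.Agent.TH783.CE.Slice

/-!
# The pole relation is not defined by equations of degree at most three

Let `K` be a number field and let `Q` be a rich set of rational primes, for example the primes
`p = 1 mod 4`.  We consider finite unions `U` of relations `∃ z, f(a, b, z) = 0` between
`a, b ∈ K`, where `f` has degree at most three in `(a, z)` (any number of variables, any degree in
`b`, all singular and reducible cases are allowed).

If for one `b` without pole above `Q` all `a` with `U(a, b)` satisfy the pole relation (that is,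
have no pole above `Q`), then the set of these `a` is thin, and by Hilbert's irreducibility
theorem it misses infinitely many rational integers.  In particular `U` is not the relation `R_K`
of the problem.

The proof.  The ring of the elements without pole above `Q` is flat: a rational function in one
variable over `K` all of whose values are in the ring is constant.  By tangent constructions every
zero `P` of a cubic form with `x₁/x₀` in a flat set satisfies a strong local identity, which leads
to a classification of the zeros into three types; the zeros of each type lie in finitely many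
hyperplanes, and one concludes by induction on the number of variables.
-/

set_option autoImplicit false

namespace Pool.Agent.Results.MP_a59382_lc.CubicEquations

open MvPolynomial Pool.Agent.TH766.HP Pool.Agent.TH783.CE

/-- The pole relation: `b` has a pole at every place of `K` above a prime of `Q` at which `a` has
a pole. -/
def PoleRel (K : Type) [Field K] [NumberField K] (Q : Set ℕ) (a b : K) : Prop :=
  ∀ v : IsDedekindDomain.HeightOneSpectrum (NumberField.RingOfIntegers K),
    (∃ p : ℕ, p.Prime ∧ p ∈ Q ∧ ((p : NumberField.RingOfIntegers K) ∈ v.asIdeal)) →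
      1 < v.valuation K a → 1 < v.valuation K b

theorem result :
    -- for every number field the relation `R_K` is not a finite union of such relations
    (∀ (K : Type) [Field K] [NumberField K] (k : ℕ) (n : Fin k → ℕ)
      (f : ∀ i, MvPolynomial (Fin 2 ⊕ Fin (n i)) K),
      (∀ i, ∀ m ∈ (f i).support, m (Sum.inl 0) + ∑ j, m (Sum.inr j) ≤ 3) →
      ¬ ∀ a b : K, (∃ i, ∃ z : Fin (n i) → K, eval (Sum.elim ![a, b] z) (f i) = 0) ↔
        PoleRel K {p | p % 4 = 1} a b) ∧
    -- the general form, for every rich set of primes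
    (∀ (K : Type) [Field K] [NumberField K] (Q : Set ℕ), Rich Q →
      ∀ (k : ℕ) (n : Fin k → ℕ) (f : ∀ i, MvPolynomial (Fin 2 ⊕ Fin (n i)) K),
      (∀ i, ∀ m ∈ (f i).support, m (Sum.inl 0) + ∑ j, m (Sum.inr j) ≤ 3) →
      ∀ b ∈ NoPole K Q,
      (∀ a : K, (∃ i, ∃ z : Fin (n i) → K, eval (Sum.elim ![a, b] z) (f i) = 0) →
        PoleRel K Q a b) →
      Thin {a : K | ∃ i, ∃ z : Fin (n i) → K, eval (Sum.elim ![a, b] z) (f i) = 0} ∧
      ∀ B : ℤ, ∃ m : ℤ, B < m ∧ PoleRel K Q (m : K) b ∧
        ¬ ∃ i, ∃ z : Fin (n i) → K, eval (Sum.elim ![(m : K), b] z) (f i) = 0) := by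
  have main : ∀ (K : Type) [Field K] [NumberField K] (Q : Set ℕ), Rich Q →
      ∀ (k : ℕ) (n : Fin k → ℕ) (f : ∀ i, MvPolynomial (Fin 2 ⊕ Fin (n i)) K),
      (∀ i, ∀ m ∈ (f i).support, m (Sum.inl 0) + ∑ j, m (Sum.inr j) ≤ 3) →
      ∀ b ∈ NoPole K Q,
      (∀ a : K, (∃ i, ∃ z : Fin (n i) → K, eval (Sum.elim ![a, b] z) (f i) = 0) →
        PoleRel K Q a b) →
      Thin {a : K | ∃ i, ∃ z : Fin (n i) → K, eval (Sum.elim ![a, b] z) (f i) = 0} ∧
      ∀ B : ℤ, ∃ m : ℤ, B < m ∧ PoleRel K Q (m : K) b ∧
        ¬ ∃ i, ∃ z : Fin (n i) → K, eval (Sum.elim ![(m : K), b] z) (f i) = 0 := by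
    intro K _ _ Q hQ k n f hf b hb h
    have hthin := thin_union (flat_noPole (K := K) hQ) b f hf (fun a ha v hv => by
      by_contra hcon
      exact absurd (h a ha v hv (not_le.1 hcon)) (not_lt.2 (hb v hv)))
    refine ⟨hthin, fun B => ?_⟩
    obtain ⟨m, hm, hm'⟩ := hthin.exists_int B
    refine ⟨m, hm, fun v _ hv' => ?_, hm'⟩
    exfalso
    have h1 : v.valuation K ((m : NumberField.RingOfIntegers K) : K) ≤ 1 :=
      v.valuation_le_one (K := K) (m : NumberField.RingOfIntegers K)
    have h2 : ((m : NumberField.RingOfIntegers K) : K) = (m : K) := by simp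
    rw [h2] at h1
    exact absurd hv' (not_lt.2 h1)
  refine ⟨fun K _ _ k n f hf hiff => ?_, main⟩
  have hb : (0 : K) ∈ NoPole K {p | p % 4 = 1} := fun v _ => by
    rw [map_zero]
    exact zero_le_one
  obtain ⟨-, h2⟩ := main K {p | p % 4 = 1} four k n f hf 0 hb (fun a ha => (hiff a 0).1 ha)
  obtain ⟨m, -, hm, hm'⟩ := h2 0
  exact hm' ((hiff _ _).2 hm)

end Pool.Agent.Results.MP_a59382_lc.CubicEquations
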