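import Pool.Agent.TH766.HP.Two

/-!
# The pole relation at the primes 1 modulo 4 and the Hasse principle
-/

set_option autoImplicit false

namespace Pool.Agent.Results.MP_a59382_lc.HassePrincipleFamilies

open Pool.Agent.TH766.HP

/-- **The pole relation at the primes `1` modulo `4` is not a Boolean combination of projective
families satisfying the Hasse principle and of local conditions.**

For a set `Q` of primes `Pole Q` is the relation between `a, b ∈ ℚ`: `b` has a pole at every prime
of `Q` at which `a` has a pole; for `Q` the primes `p = 1 mod 4` it is the relation `R_ℚ` of the
problem. Let `Alg2 Q` be the Boolean algebra of relations generated by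
* the relations `V_{a,b}(ℚ) ≠ ∅` for all families `V → 𝔸²` of closed subschemes of projective
  spaces which satisfy the Hasse principle for all `(a, b)` outside some curve;
* the relations locally constant outside a curve in the topology of one `ℚ_q` (`q` any prime);
* the conjunctions of a real condition and of `p`-adic conditions for all primes `p ∉ Q`, locally
  constant outside one curve.
The relation `Pole Q` is not in this algebra for every rich set `Q` of primes, in particular for
the primes `p = 1 mod 4`. -/
theorem result :
    (¬ Alg2 {p | p % 4 = 1} (Pole {p | p % 4 = 1})) ∧
    ∀ Q : Set ℕ, Rich Q → ¬ Alg2 Q (Pole Q) :=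
  ⟨pole_not _ four, pole_not⟩

end Pool.Agent.Results.MP_a59382_lc.HassePrincipleFamilies
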