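import Pool.Agent.TH255.RK.Main

/-!
# The pole relation is existentially definable with a coarse comparison of heights
-/

set_option autoImplicit false

open Height NumberField IsDedekindDomain

namespace Pool.Agent.Results.MP_a59382_lc.HeightComparison

/-- `b` has a pole at every prime of `K` above a prime number in `Q` at which `a` has a pole. For
`Q = {p | p % 4 = 1}` this is the relation `R_K` of the problem. -/
def PoleRel (K : Type) [Field K] [NumberField K] (Q : Set ℕ) (a b : K) : Prop :=
  ∀ v : HeightOneSpectrum (𝓞 K), (∃ p : ℕ, p.Prime ∧ p ∈ Q ∧ (p : 𝓞 K) ∈ v.asIdeal) →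
    1 < v.valuation K a → 1 < v.valuation K b

/-- The relation `H` compares the heights of elements of `K` up to the factor `B`: it holds if
`B ht(x) ≤ ht(y)` and it implies `ht(x) ≤ B ht(y)`; in between it is arbitrary. -/
def Coarse (K : Type) [Field K] [NumberField K] (B : ℕ) (H : K → K → Prop) : Prop :=
  (∀ x y, B * mulHeight₁ x ≤ mulHeight₁ y → H x y) ∧
    ∀ x y, H x y → mulHeight₁ x ≤ B * mulHeight₁ y

/-- One positive existential formula in the language of rings with parameters in `K` and with one
more binary relation symbol defines the relation `P` in the structure `(K, H)`, for every coarse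
comparison of heights `H` with factor `B`. -/
def Definable (K : Type) [Field K] [NumberField K] (B : ℕ) (P : K → K → Prop) : Prop :=
  ∃ (n : ℕ) (f : MvPolynomial (Fin 2 ⊕ Fin n) K)
    (S : Finset ((Fin 2 ⊕ Fin n) × (Fin 2 ⊕ Fin n))), ∀ H : K → K → Prop, Coarse K B H →
      ∀ a b : K, (∃ z : Fin n → K, MvPolynomial.eval (Sum.elim ![a, b] z) f = 0 ∧
        ∀ s ∈ S, H (Sum.elim ![a, b] z s.1) (Sum.elim ![a, b] z s.2)) ↔ P a b

/-- For every number field `K` and every `B` the pole relation `R_K` at the primes above prime
numbers congruent to `1` modulo `4` is existentially definable in `K` with a coarse comparison of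
heights; the same holds for every set `Q` of prime numbers for which the set of positive integers
without prime divisor in `Q` is recursively enumerable. -/
theorem result (K : Type) [Field K] [NumberField K] (B : ℕ) :
    Definable K B (PoleRel K {p | p % 4 = 1}) ∧
      ∀ Q : Set ℕ, REPred (fun m : ℕ => m ≠ 0 ∧ ∀ p ∈ Q, p.Prime → ¬ p ∣ m) →
        Definable K B (PoleRel K Q) := by
  have main : ∀ Q : Set ℕ, REPred (fun m : ℕ => m ≠ 0 ∧ ∀ p ∈ Q, p.Prime → ¬ p ∣ m) →
      Definable K B (PoleRel K Q) := by
    intro Q hQ
    obtain ⟨n, f, S, h⟩ := Pool.Agent.TH255.HK.DK.final2 (K := K) (B := B + 1)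
      (P := Pool.Agent.TH255.RK.PoleRel K Q) (Pool.Agent.TH255.HK.dk_pole hQ)
    refine ⟨n, f, S, fun H hH a b => (h H ⟨fun x y hxy => hH.1 x y ?_, fun x y hxy => ?_⟩ a b).symm⟩
    · refine le_trans (mul_le_mul_of_nonneg_right ?_ (mulHeight₁_pos x).le) hxy
      push_cast
      linarith
    · refine (hH.2 x y hxy).trans (mul_le_mul_of_nonneg_right ?_ (mulHeight₁_pos y).le)
      push_cast
      linarith
  exact ⟨main _ Pool.Agent.TH255.HK.nop_re, main⟩

end Pool.Agent.Results.MP_a59382_lc.HeightComparison
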