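import Pool.Agent.TH255.PS.Main
import Pool.Agent.TH255.PS.Nop

/-!
# The pole relation and the sizes of polar parts
-/

set_option autoImplicit false

namespace Pool.Agent.Results.MP_a59382_lc.PolarSizes

open MvPolynomial

/-- The relation `R_K` of the problem for `K = ℚ`: every prime number congruent to `1` modulo `4`
which divides the denominator of `a` divides the denominator of `b`. -/
def PoleRel (a b : ℚ) : Prop := ∀ p : ℕ, p.Prime → p % 4 = 1 → p ∣ a.den → p ∣ b.den

open scoped Classical in
/-- The size of the polar part of `x` at the primes in `Q`: the largest divisor of the denominator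
of `x` all of whose prime factors lie in `Q`. -/
noncomputable def polarSize (Q : Set ℕ) (x : ℚ) : ℕ :=
  ∏ p ∈ x.den.primeFactors with p ∈ Q, p ^ x.den.factorization p

/-- The relation `S` compares coarsely the sizes of the polar parts at the primes in `Q`. -/
def Coarse (Q : Set ℕ) (C : ℕ) (A δ : ℝ) (S : ℚ → ℚ → Prop) : Prop :=
  (∀ x y, C * polarSize Q x ≤ polarSize Q y → S x y) ∧
    ∀ x y, S x y → Real.log (polarSize Q x) ≤
      Real.log (polarSize Q y) + A * (1 + Real.log (polarSize Q y)) ^ δ

/-- One positive existential formula in the language of rings with one more binary relation symbol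
defines the relation `P` in the structure `(ℚ, S)`, for every coarse comparison `S` of the sizes of
the polar parts at the primes in `Q`. -/
def Definable (Q : Set ℕ) (C : ℕ) (A δ : ℝ) (P : ℚ → ℚ → Prop) : Prop :=
  ∃ (n : ℕ) (f : MvPolynomial (Fin 2 ⊕ Fin n) ℤ)
    (T : Finset ((Fin 2 ⊕ Fin n) × (Fin 2 ⊕ Fin n))), ∀ S : ℚ → ℚ → Prop, Coarse Q C A δ S →
      ∀ a b : ℚ, (∃ z : Fin n → ℚ, aeval (Sum.elim ![a, b] z) f = 0 ∧
        ∀ s ∈ T, S (Sum.elim ![a, b] z s.1) (Sum.elim ![a, b] z s.2)) ↔ P a b

/-- Let `Q` be a set of prime numbers containing all those congruent to `1` modulo `4`. Then the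
pole relation `R_ℚ`, and the set of integers, are existentially definable in the rational numbers
with any coarse comparison of the sizes of the polar parts at the primes in `Q`. -/
theorem result (Q : Set ℕ) (hQ : ∀ p : ℕ, p.Prime → p % 4 = 1 → p ∈ Q) (C : ℕ) (A δ : ℝ)
    (hδ : δ < 1 / 2) :
    Definable Q C A δ PoleRel ∧ Definable Q C A δ (fun a _ => ∃ z : ℤ, a = z) := by
  obtain ⟨τ, hτ⟩ := Pool.Agent.TH255.PS.btw_size C A δ hδ Q hQ
  have main : ∀ P : ℚ → ℚ → Prop, Pool.Agent.TH255.HC.DH τ (fun _ v => P (v 0) (v 1)) →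
      Definable Q C A δ P := by
    intro P hP
    obtain ⟨n, f, T, h⟩ := Pool.Agent.TH255.PS.final2 hP
    exact ⟨n, f, T, fun S hS a b => (h S (hτ S hS.1 hS.2) a b).symm⟩
  refine ⟨main _ ?_, main _ ?_⟩
  · exact (Pool.Agent.TH255.PS.dh_pole Pool.Agent.TH255.PS.nop_re).congr fun _ _ v => Iff.rfl
  · exact Pool.Agent.TH255.HC.dh_int

end Pool.Agent.Results.MP_a59382_lc.PolarSizes
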